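import Pool.Agent.Y753.SHR.R20
import Pool.Agent.Y753.SHR.Star
import Pool.Agent.Y901.SHR.Diag

set_option autoImplicit false

/-!
MP_39df77_nt. All mixed moments of order `2s`, in particular of order six (`s = 3`), near the critical line, off a small
set of large values. Let `δ(T) → 0`, `δ(T) log T → ∞`, `c ≥ 0`, `S` a countable set of reals and `R` a countable set of
positive reals. There are sets `E(T) ⊆ [0, T]` of measure `o(δ^(4+4c) T)`, at every point of which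
`|ζ(1/2 + δ + i(t + a δ))| > δ^(-2-c)` for some `a ∈ S`, and measurable determinations `w_T` of `log ζ` on the line
`Re s = 1/2 + δ`, such that for all exponents `κ_1, ..., κ_m, τ_1, ..., τ_n ∈ R` with
`κ_1 + ... + κ_m = s = τ_1 + ... + τ_n`, where `s ≤ 2` or `s ≥ 2 + 2c`, and all `a_j, b_i ∈ S`
`(2δ)^(s²) (1/T) ∫_{[0,T] \ E(T)} ∏_j exp (κ_j w_T (t + a_j δ)) ∏_i conj (exp (τ_i w_T (t + b_i δ))) dt`
converges to `a(s) ∏_{j,i} (1 + i(a_j - b_i)/2)^(-κ_j τ_i)`. For `s ≤ 2` the integral may be taken over `[0, T]`.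
For the order six (`s = 3`) every `c ≤ 1/2` is allowed, and the sets have measure `o(δ^6 T)` for `c = 1/2`.
-/

open Filter Topology MeasureTheory

/-- the arithmetic factor `a(s)`; `a(3)` is the factor `a_3` of the problem, as `Γ(3+m)/(Γ(3) m!)` is the binomial
coefficient of `m + 2` and `2` -/
noncomputable def Pool.Agent.Results.MP_39df77_nt.MixedMoments.ak (s : ℝ) : ℝ :=
  ∏' p : Nat.Primes, ((1 - 1 / (p : ℝ)) ^ (s ^ 2) *
    ∑' m : ℕ, (Real.Gamma (s + m) / (Real.Gamma s * (m.factorial : ℝ))) ^ 2 / (p : ℝ) ^ m)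

open Pool.Agent.Results.MP_39df77_nt.MixedMoments in
theorem Pool.Agent.Results.MP_39df77_nt.MixedMoments.result
    (δ : ℝ → ℝ) (hδ : Tendsto δ atTop (𝓝 0)) (hδL : Tendsto (fun T : ℝ => δ T * Real.log T) atTop atTop)
    (c : ℝ) (hc : 0 ≤ c) (S R : Set ℝ) (hS : S.Countable) (hR : R.Countable) (hR0 : ∀ r ∈ R, 0 < r) :
    ∃ (E : ℝ → Set ℝ) (w : ℝ → ℝ → ℂ), (∀ T, MeasurableSet (E T) ∧ Measurable (w T) ∧ ∀ t ∈ E T, 0 ≤ t ∧ t ≤ T ∧
        ∃ a ∈ S, (δ T) ^ (-(2 + c)) < ‖riemannZeta (1 / 2 + δ T + Complex.I * ((t + a * δ T : ℝ) : ℂ))‖) ∧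
      Tendsto (fun T => (volume (E T)).toReal / (T * (δ T) ^ (4 + 4 * c))) atTop (𝓝 0) ∧
      (∀ᶠ T in atTop, ∀ u : ℝ, riemannZeta (1 / 2 + δ T + Complex.I * (u : ℂ)) ≠ 0 →
        Complex.exp (w T u) = riemannZeta (1 / 2 + δ T + Complex.I * (u : ℂ))) ∧
      ∀ (m n : ℕ) (κ a : Fin m → ℝ) (τ b : Fin n → ℝ) (s : ℝ), 0 < s → ∑ j, κ j = s → ∑ i, τ i = s →
        (∀ j, κ j ∈ R) → (∀ j, a j ∈ S) → (∀ i, τ i ∈ R) → (∀ i, b i ∈ S) → 0 < ak s ∧
        ((s ≤ 2 ∨ 2 + 2 * c ≤ s) → Tendsto (fun T : ℝ => (((2 * δ T) ^ (s ^ 2) / T : ℝ) : ℂ) *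
          ∫ t in Set.Icc 0 T \ E T, (∏ j, Complex.exp (κ j * w T (t + a j * δ T))) *
            ∏ i, (starRingEnd ℂ) (Complex.exp (τ i * w T (t + b i * δ T)))) atTop
          (𝓝 ((ak s : ℂ) * ∏ j, ∏ i, (1 + Complex.I * ((a j - b i : ℝ) : ℂ) / 2) ^ (-((κ j * τ i : ℝ) : ℂ))))) ∧
        (s ≤ 2 → Tendsto (fun T : ℝ => (((2 * δ T) ^ (s ^ 2) / T : ℝ) : ℂ) *
          ∫ t in Set.Icc 0 T, (∏ j, Complex.exp (κ j * w T (t + a j * δ T))) *
            ∏ i, (starRingEnd ℂ) (Complex.exp (τ i * w T (t + b i * δ T)))) atTop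
          (𝓝 ((ak s : ℂ) * ∏ j, ∏ i, (1 + Complex.I * ((a j - b i : ℝ) : ℂ) / 2) ^ (-((κ j * τ i : ℝ) : ℂ))))) := by
  have e1 : ∀ k : ℝ, 0 < k → ∀ m : ℕ, Real.Gamma (k + m) / (Real.Gamma k * (m.factorial : ℝ)) = Pool.Agent.H306R2.lc k m := by
    intro k hk m
    have hG : Real.Gamma k ≠ 0 := (Real.Gamma_pos_of_pos hk).ne'
    induction m with
    | zero =>
      unfold Pool.Agent.H306R2.lc
      simp [hG]
    | succ m ih =>
      have h1 : Pool.Agent.H306R2.lc k (m + 1) = Pool.Agent.H306R2.lc k m * ((k + m) / ((m : ℝ) + 1)) := by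
        unfold Pool.Agent.H306R2.lc
        rw [Finset.prod_range_succ]
      have hkm : k + (m : ℝ) ≠ 0 := by positivity
      have h2 : Real.Gamma (k + ((m + 1 : ℕ) : ℝ)) = (k + m) * Real.Gamma (k + m) := by
        rw [← Real.Gamma_add_one hkm]
        congr 1
        push_cast
        ring
      have hf : (m.factorial : ℝ) ≠ 0 := by positivity
      rw [h1, ← ih, h2, Nat.factorial_succ]
      push_cast
      field_simp
  have e3 : ∀ k : ℝ, 0 < k → ak k = Pool.Agent.H306R2.aF k := by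
    intro k hk
    unfold ak Pool.Agent.H306R2.aF
    refine tprod_congr fun p => ?_
    simp_rw [e1 k hk, one_div, inv_pow, div_eq_mul_inv]
  obtain ⟨E, w, hE, hvol, hw, hm⟩ := Pool.Agent.Y753.SHR.mixed_small Pool.Agent.Y901.SHR.done Pool.Agent.Y753.SHR.star hδ hδL hc hS hR hR0
  have e4 : ∀ (T t : ℝ), (1 / 2 + δ T + (t : ℂ) * Complex.I : ℂ) = 1 / 2 + δ T + Complex.I * (t : ℂ) := fun T t => by ring
  refine ⟨E, w, fun T => ⟨(hE T).1, (hE T).2.2.1, fun t ht => ⟨((hE T).2.1 ht).1, ((hE T).2.1 ht).2, ?_⟩⟩, hvol, ?_, ?_⟩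
  · obtain ⟨a, ha, h1⟩ := (hE T).2.2.2 t ht
    refine ⟨a, ha, ?_⟩
    unfold Pool.Agent.Y753.SHR.za at h1
    rwa [e4] at h1
  · filter_upwards [hw] with T hT u hu
    rw [← e4] at hu ⊢
    exact hT u hu
  · intro m n κ a τ b s hs hκs hτs hκ ha hτ hb
    rw [e3 s hs]
    have hm0 : 1 ≤ m := by
      rcases Nat.eq_zero_or_pos m with h | h
      · subst h; rw [Finset.univ_eq_empty, Finset.sum_empty] at hκs; linarith
      · exact h
    have hn0 : 1 ≤ n := by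
      rcases Nat.eq_zero_or_pos n with h | h
      · subst h; rw [Finset.univ_eq_empty, Finset.sum_empty] at hτs; linarith
      · exact h
    obtain ⟨h1, h2⟩ := hm m n κ a τ b s hm0 hn0 hκs hτs hκ ha hτ hb
    refine ⟨Pool.Agent.H306R2.aF_pos hs, fun hcase => ?_, fun hs2 => ?_⟩
    · refine (h1 (by
        rcases hcase with h | h
        · left; exact h
        · right; linarith)).congr fun T => ?_
      unfold Pool.Agent.Y753.SHR.zr
      simp_rw [map_prod]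
    · refine (h2 hs2).congr fun T => ?_
      unfold Pool.Agent.Y753.SHR.zr
      simp_rw [map_prod]
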