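import Pool.Agent.Y969.SM.FinD

set_option autoImplicit false

/-!
# The sixth moment of zeta with one factor `|ζ|²` at a generic distance
-/

namespace Pool.Agent.Results.MP_39df77_nt.OneGenericShift

open Complex MeasureTheory

noncomputable section

/-- The mean over `[0, T]` of `|ζ(1/2 + it)|⁴ |ζ(1/2 + i(t + c))|²`. At `c = 0` it is `M_3(T)`. -/
def moment (T c : ℝ) : ℝ :=
  1 / T * ∫ t in (0:ℝ)..T, ‖riemannZeta (1 / 2 + I * t)‖ ^ 4 * ‖riemannZeta (1 / 2 + I * (t + c))‖ ^ 2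

/-- The local density at the prime `p`: the mean over the unit circle of the product of the
normalised local factors at `p`. -/
def localDensity (c : ℝ) (p : ℕ) : ℝ :=
  (1 - 1 / (p : ℝ)) ^ 5 * ∫ θ in (0:ℝ)..1,
    1 / (‖1 - exp (2 * Real.pi * I * θ) * (p : ℂ) ^ (-(1 / 2) : ℂ)‖ ^ 4 *
      ‖1 - exp (2 * Real.pi * I * θ) * (p : ℂ) ^ (-(1 / 2 + I * c))‖ ^ 2)

/-- The product of the local densities over the primes up to `log T`. -/
def density (T c : ℝ) : ℝ :=
  ∏ p ∈ (Finset.range (⌊Real.log T⌋₊ + 1)).filter Nat.Prime, localDensity c p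

/-- The local factor of `A(c)`: the local density over the Euler factor of `|ζ(1 + ic)|⁴`. -/
def localFactor (c : ℝ) (p : ℕ) : ℝ :=
  localDensity c p * ‖1 - (p : ℂ) ^ (-(1 + I * c))‖ ^ 4

/-- The arithmetic factor `A(c)`. -/
def arithmeticFactor (c : ℝ) : ℝ := ∏' p : Nat.Primes, localFactor c p

/-- (1) The product defining `A(c)` converges absolutely and uniformly in `c`.
(2) The mean over `c ∈ [0, T]` of `|moment T c / (log T)⁵ - density T c / 12|` tends to `0`.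
(3) `moment T c` is asymptotic to `A(c) |ζ(1 + ic)|⁴ (log T)⁵ / 12`, up to the factor `1 + O(ε)`,
for all `c ∈ [0, T]` outside a set of measure at most `ε T`. -/
theorem result :
    (∃ C : ℝ, ∀ c : ℝ, ∀ p : ℕ, p.Prime → |localFactor c p - 1| ≤ C / (p : ℝ) ^ 2) ∧
    ∀ ε : ℝ, 0 < ε → ∃ T₀ : ℝ, ∀ T : ℝ, T₀ ≤ T →
      IntegrableOn (fun c => |moment T c / Real.log T ^ 5 - 1 / 12 * density T c|) (Set.Icc 0 T) ∧
      ∫ c in Set.Icc 0 T, |moment T c / Real.log T ^ 5 - 1 / 12 * density T c| ≤ ε * T ∧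
      volume {c : ℝ | c ∈ Set.Icc 0 T ∧
        ¬ |moment T c / (1 / 12 * arithmeticFactor c * ‖riemannZeta (1 + I * c)‖ ^ 4 * Real.log T ^ 5)
          - 1| ≤ ε} ≤ ENNReal.ofReal (ε * T) := by
  obtain ⟨h1, h2⟩ := Pool.Agent.Y969.SM.res_one Pool.Agent.Y969.SM.main Pool.Agent.Y969.SM.rel
    Pool.Agent.Y969.SM.aa
  have e1 : ∀ (c : ℝ) (p : ℕ), Pool.Agent.Y969.SM.loc (fun _ : Fin 1 => c) p = localDensity c p := by
    intro c p
    simp only [Pool.Agent.Y969.SM.loc, localDensity, Fin.prod_univ_one]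
  have hI : (Finset.Ioi (0 : Fin 1)) = ∅ := by decide
  have e2 : ∀ (c : ℝ) (p : ℕ), Pool.Agent.Y969.SM.ep (fun _ : Fin 1 => c) p =
      ‖1 - (p : ℂ) ^ (-(1 + I * c))‖ ^ 4 := by
    intro c p
    simp only [Pool.Agent.Y969.SM.ep, Fin.prod_univ_one, hI, Finset.prod_empty, mul_one]
  have e3 : ∀ c : ℝ, Pool.Agent.Y969.SM.zp (fun _ : Fin 1 => c) = ‖riemannZeta (1 + I * c)‖ ^ 4 := by
    intro c
    simp only [Pool.Agent.Y969.SM.zp, Fin.prod_univ_one, hI, Finset.prod_empty, mul_one]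
  have e4 : ∀ c : ℝ, Pool.Agent.Y969.SM.AA (fun _ : Fin 1 => c) = arithmeticFactor c := by
    intro c
    simp only [Pool.Agent.Y969.SM.AA, arithmeticFactor, localFactor, e1, e2]
  have e5 : ∀ T c : ℝ, Pool.Agent.Y969.SM.SS (Real.log T) (fun _ : Fin 1 => c) = density T c := by
    intro T c
    simp only [Pool.Agent.Y969.SM.SS, density, e1]
  have e6 : ∀ T c X : ℝ, moment T c / X = (∫ t in (0:ℝ)..T, ‖riemannZeta (1 / 2 + I * t)‖ ^ 4 *
      ‖riemannZeta (1 / 2 + I * (t + c))‖ ^ 2) / (T * X) := by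
    intro T c X
    rw [moment, one_div, ← div_eq_inv_mul, div_div]
  have e7 : ∀ T a b L : ℝ, T * (a * b * L) = a * b * (T * L) := fun T a b L => by ring
  refine ⟨?_, fun ε hε => ?_⟩
  · obtain ⟨C, h1⟩ := h1
    refine ⟨C, fun c p hp => ?_⟩
    have := h1 c p hp
    rwa [e1, e2] at this
  · obtain ⟨T₀, h2⟩ := h2 ε hε
    refine ⟨T₀, fun T hT => ?_⟩
    have := h2 T hT
    simp only [e3, e4, e5] at this
    simp only [e6, e7]
    exact this

end

end Pool.Agent.Results.MP_39df77_nt.OneGenericShift
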